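import Pool.Agent.H29.R2.Targets

/-!
# Families of Artin L-functions: modules PAN (regularity of the logarithm) and PLN (linearity)
-/

set_option autoImplicit false

open Complex Filter Topology

namespace Pool.Agent.H29.R2.PAN

open Pool.Agent.H29.R2

theorem nrm (p : Nat.Primes) (s : ℂ) : ‖((p : ℕ) : ℂ) ^ (-s)‖ = ((p : ℕ) : ℝ) ^ (-s.re) := by
  rw [Complex.norm_natCast_cpow_of_pos p.2.pos, Complex.neg_re]

theorem diffT (p : Nat.Primes) : Differentiable ℂ (fun s : ℂ => ((p : ℕ) : ℂ) ^ (-s)) := by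
  intro s
  exact (differentiableAt_id.neg).const_cpow (Or.inl (by exact_mod_cast p.2.ne_zero))

theorem one_lt (p : Nat.Primes) : (1 : ℝ) < ((p : ℕ) : ℝ) := by exact_mod_cast p.2.one_lt

theorem two_le (p : Nat.Primes) : (2 : ℝ) ≤ ((p : ℕ) : ℝ) := by exact_mod_cast p.2.two_le

theorem sumP (a : ℝ) (ha : 1 < a) : Summable (fun p : Nat.Primes => ((p : ℕ) : ℝ) ^ (-a)) :=
  Nat.Primes.summable_rpow.2 (by linarith)

/-- term of `P2` -/
theorem nrm2 (p : Nat.Primes) (k : ℕ) (s : ℂ) :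
    ‖((p : ℕ) : ℂ) ^ (-(((k + 2 : ℕ) : ℂ) * s)) / ((k + 2 : ℕ) : ℂ)‖ ≤
      (((p : ℕ) : ℝ) ^ (-s.re)) ^ (k + 2) := by
  rw [norm_div, nrm, Complex.norm_natCast]
  have h1 : ((p : ℕ) : ℝ) ^ (-((((k + 2 : ℕ) : ℂ) * s).re)) = (((p : ℕ) : ℝ) ^ (-s.re)) ^ (k + 2) := by
    rw [← Real.rpow_natCast, ← Real.rpow_mul (by positivity)]
    congr 1
    rw [Complex.mul_re, Complex.natCast_re, Complex.natCast_im]
    push_cast
    ring
  rw [h1]
  apply div_le_self (by positivity)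
  push_cast
  have : (0 : ℝ) ≤ k := by positivity
  linarith

/-- geometric bound -/
theorem q_lt (p : Nat.Primes) (a : ℝ) (ha : 1 / 2 < a) : ((p : ℕ) : ℝ) ^ (-a) ≤ 3 / 4 := by
  have h1 : ((p : ℕ) : ℝ) ^ (-a) ≤ (2 : ℝ) ^ (-a) :=
    Real.rpow_le_rpow_of_nonpos (by norm_num) (two_le p) (by linarith)
  have h2 : (2 : ℝ) ^ (-a) ≤ (2 : ℝ) ^ (-(1 / 2) : ℝ) :=
    Real.rpow_le_rpow_of_exponent_le (by norm_num) (by linarith)
  have h3 : (2 : ℝ) ^ (-(1 / 2) : ℝ) ≤ 3 / 4 := by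
    rw [Real.rpow_neg (by norm_num), ← Real.sqrt_eq_rpow]
    rw [inv_le_comm₀ (by positivity) (by norm_num)]
    rw [Real.le_sqrt (by norm_num) (by norm_num)]
    norm_num
  linarith

theorem sumG (p : Nat.Primes) (a : ℝ) (ha : 1 / 2 < a) :
    HasSum (fun k : ℕ => (((p : ℕ) : ℝ) ^ (-a)) ^ (k + 2))
      ((((p : ℕ) : ℝ) ^ (-a)) ^ 2 * (1 - ((p : ℕ) : ℝ) ^ (-a))⁻¹) := by
  have h0 : 0 ≤ ((p : ℕ) : ℝ) ^ (-a) := by positivity
  have h1 := q_lt p a ha
  have h := (hasSum_geometric_of_lt_one h0 (by linarith)).mul_left ((((p : ℕ) : ℝ) ^ (-a)) ^ 2)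
  refine h.congr_fun (fun k => ?_)
  rw [pow_add, mul_comm]

theorem pf_PAN : T_PAN := by
  intro e C hC
  have hC0 : 0 ≤ C := le_trans (norm_nonneg _) (hC ⟨2, Nat.prime_two⟩ 0)
  refine ⟨fun s hs => ⟨?_, ?_⟩, fun s hs => ?_, fun B hB => ?_⟩
  · refine Summable.of_norm_bounded (g := fun p : Nat.Primes => C * ((p : ℕ) : ℝ) ^ (-s.re))
      ((sumP _ hs).mul_left C) (fun p => ?_)
    rw [norm_mul, nrm]
    exact mul_le_mul_of_nonneg_right (hC p 1) (by positivity)
  · have ha : 1 < (1 + s.re) / 2 := by linarith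
    have hopen : IsOpen {w : ℂ | (1 + s.re) / 2 < w.re} := isOpen_lt continuous_const continuous_re
    have hd : DifferentiableOn ℂ (P1 e) {w : ℂ | (1 + s.re) / 2 < w.re} := by
      unfold P1
      refine differentiableOn_tsum_of_summable_norm
        (u := fun p : Nat.Primes => C * ((p : ℕ) : ℝ) ^ (-((1 + s.re) / 2)))
        ((sumP _ ha).mul_left C) (fun p => ?_) hopen (fun p w hw => ?_)
      · exact ((differentiable_const _).mul (diffT p)).differentiableOn
      · rw [norm_mul, nrm]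
        refine mul_le_mul (hC p 1) ?_ (by positivity) hC0
        exact Real.rpow_le_rpow_of_exponent_le (one_lt p).le (by
          have : (1 + s.re) / 2 < w.re := hw
          linarith)
    exact hd.differentiableAt (hopen.mem_nhds (by show (1 + s.re) / 2 < s.re; linarith))
  · set a := (1 / 2 + s.re) / 2 with hadef
    have ha : 1 / 2 < a := by rw [hadef]; linarith
    have hopen : IsOpen {w : ℂ | a < w.re} := isOpen_lt continuous_const continuous_re
    have hterm : ∀ (p : Nat.Primes) (k : ℕ) (w : ℂ), w ∈ {w : ℂ | a < w.re} →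
        ‖e p (k + 2) * (((p : ℕ) : ℂ) ^ (-(((k + 2 : ℕ) : ℂ) * w)) / ((k + 2 : ℕ) : ℂ))‖ ≤
          C * (((p : ℕ) : ℝ) ^ (-a)) ^ (k + 2) := by
      intro p k w hw
      rw [norm_mul]
      refine mul_le_mul (hC p _) ((nrm2 p k w).trans ?_) (norm_nonneg _) hC0
      exact pow_le_pow_left₀ (by positivity)
        (Real.rpow_le_rpow_of_exponent_le (one_lt p).le (by
          have : a < w.re := hw
          linarith)) _
    have hd : DifferentiableOn ℂ (P2 e) {w : ℂ | a < w.re} := by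
      unfold P2
      refine differentiableOn_tsum_of_summable_norm
        (u := fun p : Nat.Primes => C * (4 * ((p : ℕ) : ℝ) ^ (-(2 * a))))
        (((sumP _ (by linarith)).mul_left 4).mul_left C) (fun p => ?_) hopen (fun p w hw => ?_)
      · refine differentiableOn_tsum_of_summable_norm
          (u := fun k : ℕ => C * (((p : ℕ) : ℝ) ^ (-a)) ^ (k + 2))
          ((sumG p a ha).summable.mul_left C) (fun k => ?_) hopen (fun k w hw => hterm p k w hw)
        apply DifferentiableOn.const_mul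
        apply DifferentiableOn.div_const
        apply Differentiable.differentiableOn
        have := (diffT p).comp (((differentiable_const ((k + 2 : ℕ) : ℂ)).mul differentiable_id))
        exact this
      · refine (tsum_of_norm_bounded ((sumG p a ha).mul_left C) (fun k => hterm p k w hw)).trans ?_
        refine mul_le_mul_of_nonneg_left ?_ hC0
        have h1 := q_lt p a ha
        have h2 : (((p : ℕ) : ℝ) ^ (-a)) ^ 2 = ((p : ℕ) : ℝ) ^ (-(2 * a)) := by
          rw [← Real.rpow_natCast, ← Real.rpow_mul (by positivity)]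
          congr 1
          push_cast
          ring
        rw [h2, mul_comm]
        refine mul_le_mul_of_nonneg_right ?_ (by positivity)
        rw [inv_le_comm₀ (by linarith) (by norm_num)]
        linarith
    exact hd.differentiableAt (hopen.mem_nhds (by show a < s.re; rw [hadef]; linarith))
  · have h1 : P1 e = fun s => ∑ p ∈ B.preimage (fun p : Nat.Primes => (p : ℕ))
        (Subtype.val_injective.injOn), e p 1 * ((p : ℕ) : ℂ) ^ (-s) := by
      funext s
      unfold P1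
      refine tsum_eq_sum (fun p hp => ?_)
      rw [hB p (fun h => hp (Finset.mem_preimage.2 h)), zero_mul]
    rw [h1]
    exact Differentiable.fun_sum (fun p _ => (differentiable_const _).mul (diffT p))

theorem P1_summable (e : Nat.Primes → ℕ → ℂ) (C : ℝ) (hC : ∀ p k, ‖e p k‖ ≤ C) (s : ℂ)
    (hs : 1 < s.re) : Summable (fun p : Nat.Primes => e p 1 * ((p : ℕ) : ℂ) ^ (-s)) :=
  ((pf_PAN e C hC).1 s hs).1

theorem P2_inner (e : Nat.Primes → ℕ → ℂ) (C : ℝ) (hC : ∀ p k, ‖e p k‖ ≤ C) (s : ℂ)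
    (hs : 1 / 2 < s.re) (p : Nat.Primes) : Summable (fun k : ℕ => e p (k + 2) *
      (((p : ℕ) : ℂ) ^ (-(((k + 2 : ℕ) : ℂ) * s)) / ((k + 2 : ℕ) : ℂ))) ∧
    ‖∑' k : ℕ, e p (k + 2) * (((p : ℕ) : ℂ) ^ (-(((k + 2 : ℕ) : ℂ) * s)) / ((k + 2 : ℕ) : ℂ))‖ ≤
      C * (4 * ((p : ℕ) : ℝ) ^ (-(2 * s.re))) := by
  have hC0 : 0 ≤ C := le_trans (norm_nonneg _) (hC ⟨2, Nat.prime_two⟩ 0)
  have hterm : ∀ k : ℕ,
      ‖e p (k + 2) * (((p : ℕ) : ℂ) ^ (-(((k + 2 : ℕ) : ℂ) * s)) / ((k + 2 : ℕ) : ℂ))‖ ≤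
        C * (((p : ℕ) : ℝ) ^ (-s.re)) ^ (k + 2) := by
    intro k
    rw [norm_mul]
    exact mul_le_mul (hC p _) (nrm2 p k s) (norm_nonneg _) hC0
  refine ⟨Summable.of_norm_bounded ((sumG p s.re hs).summable.mul_left C) hterm,
    (tsum_of_norm_bounded ((sumG p s.re hs).mul_left C) hterm).trans ?_⟩
  refine mul_le_mul_of_nonneg_left ?_ hC0
  have h1 := q_lt p s.re hs
  have h2 : (((p : ℕ) : ℝ) ^ (-s.re)) ^ 2 = ((p : ℕ) : ℝ) ^ (-(2 * s.re)) := by
    rw [← Real.rpow_natCast, ← Real.rpow_mul (by positivity)]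
    congr 1
    push_cast
    ring
  rw [h2, mul_comm]
  refine mul_le_mul_of_nonneg_right ?_ (by positivity)
  rw [inv_le_comm₀ (by linarith) (by norm_num)]
  linarith

theorem pf_PLN : T_PLN := by
  intro ι _ e c C hC
  refine ⟨fun s hs => ?_, fun s hs => ?_⟩
  · unfold P1
    have h1 : ∀ p : Nat.Primes, (∑ i, c i * e i p 1) * ((p : ℕ) : ℂ) ^ (-s) =
        ∑ i, c i * (e i p 1 * ((p : ℕ) : ℂ) ^ (-s)) := by
      intro p
      rw [Finset.sum_mul]
      exact Finset.sum_congr rfl (fun i _ => by ring)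
    simp only [h1]
    rw [Summable.tsum_finsetSum (fun i _ => (P1_summable (e i) C (hC i) s hs).mul_left (c i))]
    exact Finset.sum_congr rfl (fun i _ => tsum_mul_left)
  · unfold P2
    have h1 : ∀ p : Nat.Primes, (∑' k : ℕ, (∑ i, c i * e i p (k + 2)) *
        (((p : ℕ) : ℂ) ^ (-(((k + 2 : ℕ) : ℂ) * s)) / ((k + 2 : ℕ) : ℂ))) =
        ∑ i, c i * ∑' k : ℕ, e i p (k + 2) *
          (((p : ℕ) : ℂ) ^ (-(((k + 2 : ℕ) : ℂ) * s)) / ((k + 2 : ℕ) : ℂ)) := by
      intro p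
      have h2 : ∀ k : ℕ, (∑ i, c i * e i p (k + 2)) *
          (((p : ℕ) : ℂ) ^ (-(((k + 2 : ℕ) : ℂ) * s)) / ((k + 2 : ℕ) : ℂ)) =
          ∑ i, c i * (e i p (k + 2) *
            (((p : ℕ) : ℂ) ^ (-(((k + 2 : ℕ) : ℂ) * s)) / ((k + 2 : ℕ) : ℂ))) := by
        intro k
        rw [Finset.sum_mul]
        exact Finset.sum_congr rfl (fun i _ => by ring)
      simp only [h2]
      rw [Summable.tsum_finsetSum (fun i _ => ((P2_inner (e i) C (hC i) s hs p).1).mul_left (c i))]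
      exact Finset.sum_congr rfl (fun i _ => tsum_mul_left)
    simp only [h1]
    rw [Summable.tsum_finsetSum (fun i _ => ?_)]
    · exact Finset.sum_congr rfl (fun i _ => tsum_mul_left)
    · apply Summable.mul_left
      exact Summable.of_norm_bounded
        (((sumP (2 * s.re) (by linarith)).mul_left 4).mul_left C)
        (fun p => (P2_inner (e i) C (hC i) s hs p).2)

end Pool.Agent.H29.R2.PAN
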