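import Pool.Agent.H28.RC.All3
import Pool.Agent.H28.RC.WP
import Pool.Agent.H54.RC.NTB
import Pool.Agent.H60.RC.EXA
import Pool.Agent.H60.RC.MER
import Pool.Agent.H95.RQ.Asm

/-!
# Reciprocity and all Artin L-functions over the rationals, without hypotheses

Assembly of the modules of the boards of helper28 (analysis of the `L`-functions of ray class
characters, Brauer induction, reciprocity) and helper95 (the first inequality, Brauer's theorem).
-/

set_option autoImplicit false

namespace Pool.Agent.H29.R2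

open Pool.Agent.H28.RC Pool.Agent.H25.HK

theorem WPc_proved : T_WPc :=
  pf_WP c_TH c_UI Pool.Agent.H66.HK.fd c_CT c_DC T_DU_proved T_YC_proved c_CM c_CP c_CN c_RX c_ID

theorem FIQ_proved : T_FIQ := Pool.Agent.H95.RQ.Asm.all.1

theorem BRA_proved : T_BRA := Pool.Agent.H95.RQ.Asm.all.2

theorem NTB_proved : T_NTB := Pool.Agent.H54.RC.pf_NTB c_NTA

theorem RC1_proved : T_RC1 := c_RC1 WPc_proved NTB_proved FIQ_proved

theorem REC_proved : T_REC := c_REC WPc_proved NTB_proved FIQ_proved

/-- all Artin `L`-functions over the rationals -/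
theorem ALL_proved : T_ALL := c_ALL WPc_proved BRA_proved REC_proved

theorem MER_proved : T_MER :=
  Pool.Agent.H60.RC.pf_MER WPc_proved c_ME c_CS c_EP T_DU_proved c_CW

theorem CM0_proved : T_CM0 :=
  Pool.Agent.H51.RC.pf_CM0 BRA_proved REC_proved Pool.Agent.H67.RC.pf_FNR Pool.Agent.H11.HK.tr

/-- the Artin `L`-functions exist as meromorphic functions (Brauer) -/
theorem EXA_proved : T_EXA :=
  Pool.Agent.H60.RC.pf_EXA MER_proved c_EP CM0_proved (c_CM3 WPc_proved) Pool.Agent.H11.HK.lp
    Pool.Agent.H11.HK.pw Pool.Agent.H48.DL.al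

end Pool.Agent.H29.R2
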