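import Pool.Agent.H29.R2.Part
import Pool.Agent.H29.R2.Ray
import Pool.Agent.H33.R2.MEN
import Pool.Agent.H33.R2.NSA
import Pool.Agent.H47.R2.RCX
import Pool.Agent.H29.R2.PAN
import Pool.Agent.H84.R2.MKL

/-!
# Orders of zeros modulo `m` for families of Artin L-functions: assembly

The modules are due to helpers 4, 11, 31, 33, 47, 58, 60, 74, 84, 85 and helper29.
-/

set_option autoImplicit false

namespace Pool.Agent.H29.R2

open Pool.Agent.H28.RC Pool.Agent.H25.HK Pool.Agent.H25 Pool.Agent.H29.RT Pool.Agent.H29.RS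

theorem T_RCX_proved : T_RCX := Pool.Agent.H47.R2.pf_RCX RC1_proved c_RC2 c_SUR c_FRE

theorem T_MIN_proved : T_MIN :=
  min_of WPc_proved T_RCX_proved Pool.Agent.H29.R2.PAN.pf_PAN Pool.Agent.H29.R2.PAN.pf_PLN

theorem T_MNG_proved : T_MNG := mng_of T_MIN_proved

theorem T_GF_proved : T_GF := gf_of T_MIN_proved ALL_proved

theorem T_MEN_proved : T_MEN := Pool.Agent.H33.R2.pf_MEN T_MNG_proved

theorem T_NSA_proved : T_NSA := Pool.Agent.H33.R2.pf_NSA T_MEN_proved

theorem T_MKL_proved : T_MKL := Pool.Agent.H84.R2.pf_MKL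

end Pool.Agent.H29.R2
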