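import Pool.Agent.H29.R2.All
import Pool.Agent.H25.MZ.All0
import Pool.Agent.H29.EX.All
import Pool.Agent.H31.R2.DNA
import Pool.Agent.H74.R2.FAB
import Pool.Agent.H85.R2.EQA

/-!
# Families of Artin L-functions: two dilations (d < 5/2) and equal densities (d = 0): assembly
-/

set_option autoImplicit false

namespace Pool.Agent.H29.R2

open Pool.Agent.H28.RC Pool.Agent.H25.HK Pool.Agent.H25 Pool.Agent.H29.RT Pool.Agent.H29.RS

theorem T_DNA_proved : T_DNA :=
  Pool.Agent.H31.R2.DNA.pf_DNA T_MEN_proved T_MKL_proved Pool.Agent.H5.EX.pf_KAR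
    Pool.Agent.H33.DP.DYD.dyd

theorem T_FAB_proved : T_FAB :=
  Pool.Agent.H74.R2.pf_FAB Pool.Agent.H29.EX.T_FIR_proved T_DNA_proved ALL_proved

theorem T_EQA_proved : T_EQA :=
  Pool.Agent.H85.R2.pf_EQA Pool.Agent.H25.MZ.T_FI0_proved T_NSA_proved ALL_proved

end Pool.Agent.H29.R2
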