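import Pool.Agent.H28.RC.Targets3
import Pool.Agent.H29.RS.Targets

/-!
# Orders of zeros modulo `m` for families of Artin L-functions: definitions
-/

set_option autoImplicit false

open NumberField Complex Filter Topology

namespace Pool.Agent.H29.R2

open Pool.Agent.H28.RC Pool.Agent.H25.HK Pool.Agent.H25

/-- the primes in the logarithm of an Euler product -/
noncomputable def P1 (e : Nat.Primes → ℕ → ℂ) (s : ℂ) : ℂ :=
  ∑' p : Nat.Primes, e p 1 * ((p : ℕ) : ℂ) ^ (-s)

/-- the higher prime powers in the logarithm of an Euler product -/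
noncomputable def P2 (e : Nat.Primes → ℕ → ℂ) (s : ℂ) : ℂ :=
  ∑' p : Nat.Primes, ∑' k : ℕ, e p (k + 2) *
    (((p : ℕ) : ℂ) ^ (-(((k + 2 : ℕ) : ℂ) * s)) / ((k + 2 : ℕ) : ℂ))

/-- the coefficients of the logarithm of the `L`-function of `χ` -/
noncomputable def sp {K : Type} [Field K] [NumberField K] (χ : RCC K) (p : Nat.Primes) (k : ℕ) :
    ℂ :=
  if k = 0 then 0 else spc χ p k

/-- Representations of the Galois group of one Galois extension of `ℚ`, with a prime ideal above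
every prime number and a Frobenius element for it. -/
structure GFam (k : ℕ) where
  K : Type
  fK : Field K
  nK : NumberField K
  gK : IsGalois ℚ K
  V : Fin k → Type
  aV : ∀ i, AddCommGroup (V i)
  mV : ∀ i, Module ℂ (V i)
  dV : ∀ i, FiniteDimensional ℂ (V i)
  rho : ∀ i, Representation ℂ (K ≃ₐ[ℚ] K) (V i)
  P : Nat.Primes → Ideal (𝓞 K)
  P_prime : ∀ p, (P p).IsPrime
  P_mem : ∀ p : Nat.Primes, ((p : ℕ) : 𝓞 K) ∈ P p
  Fr : Nat.Primes → (K ≃ₐ[ℚ] K)
  Fr_spec : ∀ (p : Nat.Primes) (x : 𝓞 K), Fr p • x - x ^ (p : ℕ) ∈ P p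

attribute [instance] GFam.fK GFam.nK GFam.gK GFam.aV GFam.mV GFam.dV

/-- the `i`-th representation -/
noncomputable def GFam.rep {k : ℕ} (R : GFam k) (i : Fin k) : DL.ArtinRep where
  K := R.K
  fK := R.fK
  nK := R.nK
  gK := R.gK
  V := R.V i
  aV := R.aV i
  mV := R.mV i
  dV := R.dV i
  rho := R.rho i
  P := R.P
  P_prime := R.P_prime
  P_mem := R.P_mem
  Fr := R.Fr
  Fr_spec := R.Fr_spec

/-- the character of the `i`-th representation -/
noncomputable def GFam.chi {k : ℕ} (R : GFam k) (i : Fin k) (g : R.K ≃ₐ[ℚ] R.K) : ℂ :=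
  LinearMap.trace ℂ (R.V i) (R.rho i g)

open scoped Classical in
/-- The energy of the product of the functions `Λ_i(1/2 + a_i(s - 1/2) + iτ_i)^(c_i)`: the sum of
`c_i c_j ⟨χ_i, χ_j⟩` over all `i`, `j` with the same dilation and the same shift. If the
representations are irreducible and the triples of representation, dilation and shift are
different, it is the sum of the `c_i ^ 2`. -/
noncomputable def GFam.energy {k : ℕ} (R : GFam k) (a : Fin k → ℕ) (τ : Fin k → ℝ)
    (c : Fin k → ℤ) : ℝ :=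
  (∑ᶠ g : R.K ≃ₐ[ℚ] R.K, ∑ i, ∑ j, if a i = a j ∧ τ i = τ j then
    (c i : ℝ) * c j * (R.chi i g * (starRingEnd ℂ) (R.chi j g)).re else 0) /
    Nat.card (R.K ≃ₐ[ℚ] R.K)

open scoped Classical in
/-- the part of the energy with dilation `v` -/
noncomputable def GFam.en {k : ℕ} (R : GFam k) (a : Fin k → ℕ) (τ : Fin k → ℝ)
    (c : Fin k → ℤ) (v : ℕ) : ℝ :=
  (∑ᶠ g : R.K ≃ₐ[ℚ] R.K, ∑ i, ∑ j, if a i = v ∧ a j = v ∧ τ i = τ j then
    (c i : ℝ) * c j * (R.chi i g * (starRingEnd ℂ) (R.chi j g)).re else 0) /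
    Nat.card (R.K ≃ₐ[ℚ] R.K)

end Pool.Agent.H29.R2
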