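import Pool.Agent.H28.RC.All3
import Pool.Agent.H29.RS.All
import Pool.Agent.H11.R2.CNN
import Pool.Agent.H11.R2.ELO
import Pool.Agent.H33.R2.LIM
import Pool.Agent.H33.R2.LNV
import Pool.Agent.H33.R2.RCT
import Pool.Agent.H4.R2.MCF
import Pool.Agent.H47.R2.MIN
import Pool.Agent.H58.R2.AIX
import Pool.Agent.H58.R2.IDX
import Pool.Agent.H58.R2.MLI
import Pool.Agent.H60.R2.CNZ
import Pool.Agent.H60.R2.GF
import Pool.Agent.H85.R2.CNT
import Pool.Agent.H85.R2.MNG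

/-!
# Orders of zeros modulo `m` for families of Artin L-functions: partial assembly
-/

set_option autoImplicit false

namespace Pool.Agent.H29.R2

open Pool.Agent.H28.RC Pool.Agent.H25.HK Pool.Agent.H25 Pool.Agent.H29.RT Pool.Agent.H29.RS

theorem T_ELO_proved : T_ELO := Pool.Agent.H11.R2.pf_ELO c_EP

theorem cnt_of (hWP : T_WPc) : T_CNT :=
  Pool.Agent.H85.R2.pf_CNT hWP c_ME c_CS c_EP T_DU_proved c_CW c_CM c_CP c_ID

theorem T_RCT_proved : T_RCT := Pool.Agent.H33.R2.pf_RCT c_RC2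

theorem min_of (hWP : T_WPc) (hRCX : T_RCX) (hPAN : T_PAN) (hPLN : T_PLN) : T_MIN :=
  Pool.Agent.H47.R2.pf_MIN
    (Pool.Agent.H33.R2.pf_LNV Pool.Agent.H58.R2.pf_IDX hRCX T_RCT_proved
      (Pool.Agent.H11.R2.pf_CNN (cnt_of hWP))
      (Pool.Agent.H60.R2.pf_CNZ (cnt_of hWP) T_ELO_proved hPAN Pool.Agent.H68.RC.pf_SPA)
      T_ELO_proved hPAN hPLN)
    (Pool.Agent.H60.R2.pf_CNZ (cnt_of hWP) T_ELO_proved hPAN Pool.Agent.H68.RC.pf_SPA)
    T_RCT_proved T_ELO_proved (Pool.Agent.H33.R2.pf_LIM hPAN) Pool.Agent.H58.R2.pf_MLI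

theorem mng_of (hM : T_MIN) : T_MNG :=
  Pool.Agent.H85.R2.pf_MNG (Pool.Agent.H4.R2.pf_MCF Pool.Agent.H58.R2.pf_AIX hM)
    Pool.Agent.H67.RC.pf_FNR

theorem gf_of (hM : T_MIN) (hA : T_ALL) : T_GF :=
  Pool.Agent.H60.R2.pf_GF T_FIW_proved T_RVS_proved (mng_of hM) hA

end Pool.Agent.H29.R2
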