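import Pool.Agent.H29.R2.Defs

/-!
# Orders of zeros modulo `m` for families of Artin L-functions: targets
-/

set_option autoImplicit false

open NumberField Complex Filter Topology

namespace Pool.Agent.H29.R2

open Pool.Agent.H28.RC Pool.Agent.H25.HK Pool.Agent.H25 Pool.Agent.H29.RT Pool.Agent.H29.RS

/-! ### Analysis -/

/-- (PAN) regularity of the two parts of the logarithm. -/
def T_PAN : Prop :=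
  ∀ (e : Nat.Primes → ℕ → ℂ) (C : ℝ), (∀ p k, ‖e p k‖ ≤ C) →
    (∀ s : ℂ, 1 < s.re → Summable (fun p : Nat.Primes => e p 1 * ((p : ℕ) : ℂ) ^ (-s)) ∧
      DifferentiableAt ℂ (P1 e) s) ∧
    (∀ s : ℂ, 1 / 2 < s.re → DifferentiableAt ℂ (P2 e) s) ∧
    ∀ B : Finset ℕ, (∀ p : Nat.Primes, (p : ℕ) ∉ B → e p 1 = 0) → Differentiable ℂ (P1 e)

/-- (PLN) linearity. -/
def T_PLN : Prop :=
  ∀ (ι : Type) [Fintype ι] (e : ι → Nat.Primes → ℕ → ℂ) (c : ι → ℂ) (C : ℝ),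
    (∀ i p k, ‖e i p k‖ ≤ C) →
    (∀ s : ℂ, 1 < s.re → P1 (fun p k => ∑ i, c i * e i p k) s = ∑ i, c i * P1 (e i) s) ∧
    ∀ s : ℂ, 1 / 2 < s.re → P2 (fun p k => ∑ i, c i * e i p k) s = ∑ i, c i * P2 (e i) s

/-- (LIM) the logarithm at the line `Re s = 1`. -/
def T_LIM : Prop :=
  ∀ (e : Nat.Primes → ℕ → ℂ) (C : ℝ), (∀ p k, ‖e p k‖ ≤ C) → ∀ (H : ℂ → ℂ) (t : ℝ) (k : ℕ),
    ContinuousAt H (1 + t * I) → H (1 + t * I) ≠ 0 →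
    (∀ s : ℂ, 1 < s.re → H s = (s - (1 + t * I)) ^ k * cexp (P1 e s + P2 e s)) →
    ∃ l : ℂ, Tendsto (fun σ : ℝ => P1 e (1 + t * I + σ) + k * (Real.log σ : ℂ)) (𝓝[>] 0) (𝓝 l)

/-- (MLI) from the limit of the logarithm to the mean. -/
def T_MLI : Prop :=
  ∀ (e : Nat.Primes → ℕ → ℂ) (w : Nat.Primes → ℂ) (C : ℝ) (B : Finset ℕ),
    (∀ p k, ‖e p k‖ ≤ C) → (∀ p, ‖w p‖ ≤ C) → (∀ p : Nat.Primes, (p : ℕ) ∉ B → w p = e p 1) →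
    ∀ (t : ℝ) (k : ℕ) (l : ℂ),
    Tendsto (fun σ : ℝ => P1 e (1 + t * I + σ) + k * (Real.log σ : ℂ)) (𝓝[>] 0) (𝓝 l) →
    ∀ s : ℕ, 1 ≤ s → Tendsto (fun L : ℝ => ∑' p : Nat.Primes, w p *
      ((p : ℕ) : ℂ) ^ (-(t * I) : ℂ) *
        ((((p : ℕ) : ℝ) ^ (-(1 + s / L) : ℝ) - ((p : ℕ) : ℝ) ^ (-(1 + 1 / L) : ℝ) : ℝ) : ℂ)) atTop
      (𝓝 (-(k * (Real.log s : ℂ))))

/-! ### L-functions of ray class characters -/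

/-- (ELO) the logarithm of the `L`-function. -/
def T_ELO : Prop :=
  ∀ (K : Type) [Field K] [NumberField K] (χ : RCC K),
    (∀ p k, ‖sp χ p k‖ ≤ Module.finrank ℚ K) ∧
    ∀ s : ℂ, 1 < s.re → Lc χ s = cexp (P1 (sp χ) s + P2 (sp χ) s)

/-- (CNT) continuation to `Re s > 0`. -/
def T_CNT : Prop :=
  ∀ (K : Type) [Field K] [NumberField K] (χ : RCC K), ∃ H : ℂ → ℂ,
    (∀ s : ℂ, 0 < s.re → DifferentiableAt ℂ H s) ∧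
    (∀ s : ℂ, 1 < s.re → H s = (s - 1) * Lc χ s) ∧
    ((∃ I : Ideal (𝓞 K), χ.ψ I ≠ 0 ∧ χ.ψ I ≠ 1) → H 1 = 0)

/-- (CNN) nontrivial characters. -/
def T_CNN : Prop :=
  ∀ (K : Type) [Field K] [NumberField K] (χ : RCC K),
    (∃ I : Ideal (𝓞 K), χ.ψ I ≠ 0 ∧ χ.ψ I ≠ 1) → ∃ H : ℂ → ℂ,
      (∀ s : ℂ, 0 < s.re → DifferentiableAt ℂ H s) ∧ ∀ s : ℂ, 1 < s.re → H s = Lc χ s

/-- (CNZ) the zeta function: continuation and zeros on the line `Re s = 1`. -/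
def T_CNZ : Prop :=
  ∀ (K : Type) [Field K] [NumberField K], ∃ H : ℂ → ℂ,
    (∀ s : ℂ, 0 < s.re → DifferentiableAt ℂ H s) ∧
    (∀ s : ℂ, 1 < s.re → H s = (s - 1) * Lc (triv K) s) ∧ ∀ t : ℝ, H (1 + t * I) ≠ 0

/-! ### Characters -/

/-- (IDX) the powers of a one-dimensional character. -/
def T_IDX : Prop :=
  ∀ (G : Type) [Group G] [Finite G] (H : Subgroup G) (lam : H →* ℂˣ), lam ≠ 1 →
    ∃ (n : ℕ) (N : Subgroup G), 2 ≤ n ∧ (∀ j : ℕ, 1 ≤ j → j < n → lam ^ j ≠ 1) ∧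
      ∀ g : G, ∑ j ∈ Finset.range n, indc H (lam ^ j) g = indc N 1 g

open scoped Classical in
/-- (AIX) class functions as combinations of induced characters. -/
def T_AIX : Prop :=
  ∀ (G : Type) [Group G] [Finite G] (φ : G → ℂ), (∀ x g, φ (x⁻¹ * g * x) = φ g) →
    ∃ (N : ℕ) (H : Fin N → Subgroup G) (lam : ∀ i, H i →* ℂˣ) (b : Fin N → ℂ),
      (∀ g, φ g = ∑ i, b i * indc (H i) (lam i) g) ∧
      ∑ i, (if lam i = 1 then b i else 0) = (∑ᶠ g, φ g) / Nat.card G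

/-- (RCX) reciprocity for nontrivial characters. -/
def T_RCX : Prop :=
  ∀ (R : DL.ArtinRep) (H : Subgroup (R.K ≃ₐ[ℚ] R.K)) (lam : H →* ℂˣ), lam ≠ 1 →
    ∃ (χ : RCC (IntermediateField.fixedField H)) (B : Finset ℕ),
      (∃ I, χ.ψ I ≠ 0 ∧ χ.ψ I ≠ 1) ∧ ∀ p : Nat.Primes, (p : ℕ) ∉ B → ∀ k : ℕ, 1 ≤ k →
        sp χ p k = indc H lam (R.Fr p ^ k)

/-- (RCT) the trivial character. -/
def T_RCT : Prop :=
  ∀ (R : DL.ArtinRep) (H : Subgroup (R.K ≃ₐ[ℚ] R.K)), ∃ B : Finset ℕ,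
    ∀ p : Nat.Primes, (p : ℕ) ∉ B → ∀ k : ℕ, 1 ≤ k →
      sp (triv (IntermediateField.fixedField H)) p k = indc H 1 (R.Fr p ^ k)

/-- (LNV) no zeros on the line `Re s = 1`. -/
def T_LNV : Prop :=
  ∀ (R : DL.ArtinRep) (H : Subgroup (R.K ≃ₐ[ℚ] R.K)) (lam : H →* ℂˣ), lam ≠ 1 →
    ∃ (χ : RCC (IntermediateField.fixedField H)) (B : Finset ℕ) (G : ℂ → ℂ),
      (∀ p : Nat.Primes, (p : ℕ) ∉ B → ∀ k : ℕ, 1 ≤ k →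
        sp χ p k = indc H lam (R.Fr p ^ k)) ∧
      (∀ s : ℂ, 0 < s.re → DifferentiableAt ℂ G s) ∧ (∀ s : ℂ, 1 < s.re → G s = Lc χ s) ∧
      ∀ t : ℝ, G (1 + t * I) ≠ 0

open scoped Classical in
/-- (MIN) the mean of an induced character. -/
def T_MIN : Prop :=
  ∀ (R : DL.ArtinRep) (H : Subgroup (R.K ≃ₐ[ℚ] R.K)) (lam : H →* ℂˣ) (w : Nat.Primes → ℂ)
    (C : ℝ) (B : Finset ℕ), (∀ p, ‖w p‖ ≤ C) →
    (∀ p : Nat.Primes, (p : ℕ) ∉ B → w p = indc H lam (R.Fr p)) → ∀ (t : ℝ) (s : ℕ), 1 ≤ s →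
    Tendsto (fun L : ℝ => ∑' p : Nat.Primes, w p * ((p : ℕ) : ℂ) ^ (-(t * I) : ℂ) *
        ((((p : ℕ) : ℝ) ^ (-(1 + s / L) : ℝ) - ((p : ℕ) : ℝ) ^ (-(1 + 1 / L) : ℝ) : ℝ) : ℂ)) atTop
      (𝓝 (if lam = 1 ∧ t = 0 then -(Real.log s : ℂ) else 0))

open scoped Classical in
/-- (MCF) the mean of a class function. -/
def T_MCF : Prop :=
  ∀ (R : DL.ArtinRep) (φ : (R.K ≃ₐ[ℚ] R.K) → ℂ) (w : Nat.Primes → ℂ)
    (C : ℝ) (B : Finset ℕ), (∀ x g, φ (x⁻¹ * g * x) = φ g) → (∀ p, ‖w p‖ ≤ C) →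
    (∀ p : Nat.Primes, (p : ℕ) ∉ B → w p = φ (R.Fr p)) → ∀ (t : ℝ) (s : ℕ), 1 ≤ s →
    Tendsto (fun L : ℝ => ∑' p : Nat.Primes, w p * ((p : ℕ) : ℂ) ^ (-(t * I) : ℂ) *
        ((((p : ℕ) : ℝ) ^ (-(1 + s / L) : ℝ) - ((p : ℕ) : ℝ) ^ (-(1 + 1 / L) : ℝ) : ℝ) : ℂ)) atTop
      (𝓝 (if t = 0 then -((∑ᶠ g, φ g) / Nat.card (R.K ≃ₐ[ℚ] R.K) * (Real.log s : ℂ)) else 0))

open scoped Classical in
/-- (MNG) the mean for a family. -/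
def T_MNG : Prop :=
  ∀ (k : ℕ) (R : GFam k) (a : Fin k → ℕ) (τ : Fin k → ℝ) (c : Fin k → ℤ) (m v : ℕ)
    (X : Fin k → ℕ → ℂ), 1 ≤ m →
    (∀ i (p : Nat.Primes), X i p = LinearMap.trace ℂ (R.V i) ((R.rep i).fr p)) →
    Mean (fun p => ‖(∑ i, if a i = v then
        (c i : ℂ) * X i p * (p : ℂ) ^ (-(τ i * I) : ℂ) else 0) / m‖ ^ 2)
      (R.en a τ c v / m ^ 2)

/-! ### The theorem -/

/-- (GF) families of Artin `L`-functions. -/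
def T_GF : Prop :=
  ∀ (k : ℕ) (R : GFam k) (Λ : Fin k → ℂ → ℂ) (a : Fin k → ℕ) (τ : Fin k → ℝ) (c : Fin k → ℤ)
    (m : ℕ) (κ ε ρ d : ℝ), (∀ i, IsArtin (R.rep i) (Λ i)) → (∀ i, 1 ≤ a i) →
    d = ∑ i, (c i : ℝ) * a i * (R.rep i).dim → 0 < d → d < 2 * κ * m → κ ≤ 1 →
    R.energy a τ c ≠ (m : ℝ) ^ 2 → 0 < ε →
    (R.energy a τ c < (m : ℝ) ^ 2 → ρ = min κ (4 * κ - 2 * (d / m))) →
    ((m : ℝ) ^ 2 < R.energy a τ c → ρ = min κ (2 * κ - d / m)) →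
    ∃ T₀ : ℝ, ∀ T : ℝ, T₀ ≤ T → ∃ Z : Finset ℂ, T ^ (ρ - ε) ≤ Z.card ∧
      ∀ z ∈ Z, T ≤ z.im ∧ z.im ≤ T + T ^ κ ∧
        ¬ ∃ j : ℕ, ∑ i, c i * (meromorphicOrderAt (Λ i)
          (1 / 2 + (a i : ℂ) * (z - 1 / 2) + τ i * I)).untop₀ = (m : ℤ) * j

end Pool.Agent.H29.R2
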