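import Pool.Agent.H29.R2.Targets
import Pool.Agent.H29.EX.Targets

/-!
# Families of Artin L-functions: two dilations (d < 5/2) and equal densities (d = 0): targets
-/

set_option autoImplicit false

open NumberField Complex Filter Topology

namespace Pool.Agent.H29.R2

open Pool.Agent.H28.RC Pool.Agent.H25.HK Pool.Agent.H25 Pool.Agent.H29.RT Pool.Agent.H29.RS

/-- The factors of dilation `r` do not cancel: for some shift `t` the class function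
`∑ c_i χ_i`, over the indices `i` with dilation `r` and shift `t`, is not `0`. -/
def GFam.NonDeg {k : ℕ} (R : GFam k) (a τ : Fin k → ℝ) (c : Fin k → ℤ) (r : ℝ) : Prop :=
  open scoped Classical in
  ∃ (t : ℝ) (g : R.K ≃ₐ[ℚ] R.K), ∑ i, (if a i = r ∧ τ i = t then (c i : ℂ) * R.chi i g else 0) ≠ 0

/-- the traces of the Frobenius elements -/
def GFam.Tr {k : ℕ} (R : GFam k) (X : Fin k → ℕ → ℂ) : Prop :=
  ∀ i (p : Nat.Primes), X i p = LinearMap.trace ℂ (R.V i) ((R.rep i).fr p)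

open scoped Classical in
/-- the coefficient at `p` of the factors of dilation `r` -/
noncomputable def cb {k : ℕ} (a τ : Fin k → ℝ) (c : Fin k → ℤ) (X : Fin k → ℕ → ℂ) (r : ℝ)
    (p : ℕ) : ℂ :=
  ∑ i, if a i = r then (c i : ℂ) * X i p * (p : ℂ) ^ (-(τ i * I) : ℂ) else 0

/-- (MEN) the mean of the squares of the coefficients is positive. -/
def T_MEN : Prop :=
  ∀ (k : ℕ) (R : GFam k) (a τ : Fin k → ℝ) (c : Fin k → ℤ) (X : Fin k → ℕ → ℂ) (r : ℝ),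
    R.Tr X → R.NonDeg a τ c r → ∃ α : ℝ, 0 < α ∧ Mean (fun p => ‖cb a τ c X r p‖ ^ 2) α

/-- (MKL) the mean with weights `log p`. -/
def T_MKL : Prop :=
  ∀ (w : ℕ → ℝ) (α : ℝ), (∀ n, 0 ≤ w n) → (∃ C : ℝ, ∀ p : Nat.Primes, w p ≤ C) → Mean w α →
    ∀ s : ℕ, 1 ≤ s → Tendsto (fun L : ℝ => (∑' p : Nat.Primes,
      w p * Real.log p * (p : ℝ) ^ (-(1 + s / L) : ℝ)) / L) atTop (𝓝 (α / s))

/-- (DNA) dyadic blocks with many primes. -/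
def T_DNA : Prop :=
  ∀ (k : ℕ) (R : GFam k) (a τ : Fin k → ℝ) (c : Fin k → ℤ) (X : Fin k → ℕ → ℂ) (r : ℝ),
    R.Tr X → R.NonDeg a τ c r → ∀ x₁ x₂ ε : ℝ, 0 < x₁ → x₁ < x₂ → 0 < ε → ∃ T₀ : ℝ, ∀ T : ℝ,
    T₀ ≤ T → ∃ Y : ℕ, T ^ x₁ ≤ Y ∧ (Y : ℝ) ≤ T ^ x₂ ∧
      T ^ (-ε) ≤ ∑ p ∈ (Finset.Ico Y (2 * Y)).filter Nat.Prime, ‖cb a τ c X r p‖ ^ 2 / p

/-- (NSA) many primes with a non-zero coefficient. -/
def T_NSA : Prop :=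
  ∀ (k : ℕ) (R : GFam k) (a τ : Fin k → ℝ) (c : Fin k → ℤ) (X : Fin k → ℕ → ℂ) (r : ℝ),
    R.Tr X → R.NonDeg a τ c r →
    ¬ Summable (fun p : {p : ℕ // p.Prime ∧ cb a τ c X r p ≠ 0} => (1 : ℝ) / ((p : ℕ) : ℝ))

/-- (FAB) families with two dilations. -/
def T_FAB : Prop :=
  ∀ (k : ℕ) (R : GFam k) (Λ : Fin k → ℂ → ℂ) (a τ : Fin k → ℝ) (c : Fin k → ℤ) (r d ε : ℝ),
    (∀ i, IsArtin (R.rep i) (Λ i)) → 1 < r → (∀ i, a i = 1 ∨ a i = r) → R.NonDeg a τ c r →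
    d = ∑ i, (c i : ℝ) * a i * (R.rep i).dim → 0 < d → d < 5 / 2 → 3 * d < 2 * r + 1 →
    6 * d < 3 * r + 4 → 0 < ε → ∃ T₀ : ℝ, ∀ T : ℝ, T₀ ≤ T → ∃ Z : Finset ℂ,
      T ^ (min 1 (5 - 2 * d) - ε) ≤ Z.card ∧ ∀ z ∈ Z, T ≤ z.im ∧ z.im ≤ 2 * T ∧
        ∑ i, c i * (meromorphicOrderAt (Λ i)
          (1 / 2 + (a i : ℂ) * (z - 1 / 2) + τ i * I)).untop₀ < 0

/-- (EQA) families with equal densities. -/
def T_EQA : Prop :=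
  ∀ (k : ℕ) (R : GFam k) (Λ : Fin k → ℂ → ℂ) (a τ : Fin k → ℝ) (c : Fin k → ℤ) (μ : ℝ),
    (∀ i, IsArtin (R.rep i) (Λ i)) → 0 < μ → (∀ i, μ ≤ a i) → R.NonDeg a τ c μ →
    ∑ i, (c i : ℝ) * a i * (R.rep i).dim = 0 → ∃ δ T₀ : ℝ, 0 < δ ∧ ∀ T W : ℝ, T₀ ≤ T →
    δ⁻¹ * Real.log T ≤ W → W ≤ T → ∃ Z : Finset ℂ, δ * W / Real.log T ≤ Z.card ∧
      ∀ z ∈ Z, T ≤ z.im ∧ z.im ≤ T + W ∧ ∑ i, c i * (meromorphicOrderAt (Λ i)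
        (1 / 2 + (a i : ℂ) * (z - 1 / 2) + τ i * I)).untop₀ < 0

end Pool.Agent.H29.R2
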